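import Pool.Agent.Y425.SC6.All
import Pool.Agent.TH849.SC.Fin

set_option autoImplicit false

/-!
Circuits in double covers by five even subgraphs of bridgeless cubic graphs of cutwidth at most six.
-/

open Finset

namespace Pool.Agent.Y425.SC6

open Pool.Agent.Y425.SC
open Pool.Agent.Y425.CW (gr net ov mem_gr)
open Pool.Agent.TH849.SC (sE tE st_mk EvenSet Circ even_parts)
open Pool.Agent.Helper347.Sab (MGraph dg)
open Pool.Agent.TH697.CW6 (cut cut_iff)

variable {V E : Type}

theorem st_ne (ends : E → Sym2 V) (hloop : ∀ e : E, ¬ (ends e).IsDiag) (e : E) :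
    sE ends e ≠ tE ends e := by
  intro h
  apply hloop e
  rw [← st_mk ends e, h]
  exact Sym2.mk_isDiag_iff.2 rfl

theorem ms_card : ∀ c < 10, ((univ : Finset (Fin 5)).filter
    fun i : Fin 5 => (ms c).testBit (i : ℕ) = true).card = 2 := by
  decide +kernel

theorem ms_zero : ∀ c < 4, (ms c).testBit 0 = true := by
  decide +kernel

variable [Fintype V] [DecidableEq V] [Fintype E] [DecidableEq E]

theorem gr_ends (ends : E → Sym2 V) (hloop : ∀ e : E, ¬ (ends e).IsDiag) (e : E) :
    (gr (sE ends) (tE ends) (st_ne ends hloop)).ends e = ends e := st_mk ends e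

theorem gr_dg (ends : E → Sym2 V) (hloop : ∀ e : E, ¬ (ends e).IsDiag) (F : Finset E) (v : V) :
    dg (gr (sE ends) (tE ends) (st_ne ends hloop)) F v =
      (F.filter (fun e : E => v ∈ ends e)).card := by
  unfold dg
  congr 1
  ext e
  rw [mem_filter, mem_filter, gr_ends ends hloop]

theorem main (ends : E → Sym2 V) (hloop : ∀ e : E, ¬ (ends e).IsDiag)
    (hdeg : ∀ v : V, (univ.filter (fun e : E => v ∈ ends e)).card = 3)
    (hbr : ∀ e : E, ∃ S : Finset E, e ∈ S ∧ EvenSet ends S)
    (hw : ∃ num : V → ℕ, Function.Injective num ∧ ∀ n,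
      (univ.filter (fun e : E => (∃ v ∈ ends e, num v < n) ∧ ∃ v ∈ ends e, n ≤ num v)).card ≤ 6)
    (C : Finset E) (hC : Circ ends C) :
    ∃ A : Fin 5 → Finset E, (∀ i, EvenSet ends (A i)) ∧ C ⊆ A 0 ∧
      ∀ e, (univ.filter (fun i => e ∈ A i)).card = 2 := by
  classical
  have hS2 : ∀ v, dg (gr (sE ends) (tE ends) (st_ne ends hloop)) C v = 0 ∨
      dg (gr (sE ends) (tE ends) (st_ne ends hloop)) C v = 2 := by
    intro v
    rw [gr_dg ends hloop]
    have h1 := hC.2.1 v
    have h2 : (C.filter (fun e : E => v ∈ ends e)).card ≤ 3 := by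
      rw [← hdeg v]
      exact card_le_card (filter_subset_filter _ (subset_univ _))
    rw [Nat.even_iff] at h1
    omega
  have hmin : ∀ Q ⊆ C, Q.Nonempty →
      (∀ w, Even (dg (gr (sE ends) (tE ends) (st_ne ends hloop)) Q w)) → Q = C := by
    intro Q hQ hne hev
    apply hC.2.2 Q hQ hne
    intro w
    have := hev w
    rw [gr_dg ends hloop] at this
    exact this
  -- cuts meet even sets in an even number of edges
  have hcut : ∀ (Y : Finset V) (Q : Finset E), EvenSet ends Q →
      Even ((cut (gr (sE ends) (tE ends) (st_ne ends hloop)) Y ∩ Q).card) := by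
    intro Y Q hQ
    induction Y using Finset.induction_on with
    | empty =>
      have : cut (gr (sE ends) (tE ends) (st_ne ends hloop)) (∅ : Finset V) = ∅ := by
        unfold cut
        rw [filter_eq_empty_iff]
        rintro e _ ⟨⟨w, hw, _⟩, _⟩
        exact notMem_empty _ hw
      rw [this, empty_inter, card_empty]
      exact Even.zero
    | insert v Y hv ih =>
      have h1 : (cut (gr (sE ends) (tE ends) (st_ne ends hloop)) (insert v Y)) ∩ Q =
          ((cut (gr (sE ends) (tE ends) (st_ne ends hloop)) Y ∩ Q) \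
            (Q.filter fun e => v ∈ ends e)) ∪
          ((Q.filter fun e => v ∈ ends e) \
            (cut (gr (sE ends) (tE ends) (st_ne ends hloop)) Y ∩ Q)) := by
        ext e
        simp only [mem_inter, mem_union, mem_sdiff, mem_filter,
          Pool.Agent.TH697.CW6.cut_insert hv, gr_ends ends hloop]
        tauto
      have h2 : Disjoint ((cut (gr (sE ends) (tE ends) (st_ne ends hloop)) Y ∩ Q) \
            (Q.filter fun e => v ∈ ends e)) ((Q.filter fun e => v ∈ ends e) \
            (cut (gr (sE ends) (tE ends) (st_ne ends hloop)) Y ∩ Q)) := by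
        rw [disjoint_left]
        intro e he he'
        rw [mem_sdiff] at he he'
        exact he.2 he'.1
      rw [h1, card_union_of_disjoint h2]
      clear h1 h2
      have h5 : Even (Q.filter fun e => v ∈ ends e).card := hQ v
      revert ih h5
      generalize (cut (gr (sE ends) (tE ends) (st_ne ends hloop)) Y ∩ Q) = A1
      generalize (Q.filter fun e => v ∈ ends e) = A2
      intro ih h5
      have h3 := card_sdiff_add_card_inter A1 A2
      have h4 := card_sdiff_add_card_inter A2 A1
      rw [inter_comm] at h4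
      rw [Nat.even_iff] at *
      omega
  obtain ⟨num, hinj, hnum⟩ := hw
  obtain ⟨f, hf1, hf2⟩ := cubicS (s := sE ends) (t := tE ends) (hst := st_ne ends hloop) (S := C)
    (w := 6) (fun v => by rw [gr_dg ends hloop]; exact hdeg v) (fun Y h1 => by
      obtain ⟨e, he⟩ := card_eq_one.1 h1
      obtain ⟨Q, heQ, hQ⟩ := hbr e
      have h2 := hcut Y Q hQ
      rw [he, singleton_inter_of_mem heQ, card_singleton] at h2
      exact absurd h2 (by decide)) hS2 hmin ⟨num, hinj, fun T => by
      refine le_trans (card_le_card ?_) (hnum T)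
      intro e he
      have h1 := (cut_iff (G := gr (sE ends) (tE ends) (st_ne ends hloop)) (e := e)
        (a := sE ends e) (b := tE ends e) rfl _).1 he
      rw [mem_filter]
      refine ⟨mem_univ _, ?_⟩
      have hs : sE ends e ∈ ends e := by
        rw [← st_mk ends e]
        unfold sE
        exact Sym2.mem_mk_left _ _
      have ht : tE ends e ∈ ends e := by
        rw [← st_mk ends e]
        unfold tE
        exact Sym2.mem_mk_right _ _
      simp only [mem_filter, mem_univ, true_and, not_lt] at h1
      rcases h1 with ⟨h2, h3⟩ | ⟨h2, h3⟩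
      · exact ⟨⟨_, hs, h2⟩, ⟨_, ht, h3⟩⟩
      · exact ⟨⟨_, ht, h2⟩, ⟨_, hs, h3⟩⟩⟩ tbl ok_all pos_all rfl rfl rfl rfl rfl
  choose c hc10 hc4 hcv using hf1
  refine ⟨fun i => univ.filter fun e => (ms (c e)).testBit i = true, ?_, ?_, ?_⟩
  · intro i v
    have h1 : ∑ e, ((if sE ends e = v then f e else 0) -
        (if tE ends e = v then f e else 0)) i = 0 := by
      have h0 := congrFun (hf2 v (mem_univ v)) i
      unfold net at h0
      rw [Finset.sum_apply] at h0
      convert h0
      rfl
    have h2 : ∀ e, ((if sE ends e = v then f e else 0) - (if tE ends e = v then f e else 0)) i =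
        (if e ∈ (univ.filter fun e => (ms (c e)).testBit i = true).filter (fun e => v ∈ ends e)
          then (1 : ZMod 2) else 0) := by
      intro e
      have h3 : f e i = if (ms (c e)).testBit i = true then 1 else 0 := by
        rw [← hcv e]; rfl
      have hne := st_ne ends hloop e
      have hmem : v ∈ ends e ↔ (sE ends e = v ∨ tE ends e = v) := by
        rw [← gr_ends ends hloop e, mem_gr]
        constructor
        · rintro (h | h)
          · exact Or.inl h.symm
          · exact Or.inr h.symm
        · rintro (h | h)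
          · exact Or.inl h.symm
          · exact Or.inr h.symm
      simp only [mem_filter, mem_univ, true_and, hmem]
      rw [Pi.sub_apply]
      by_cases g1 : sE ends e = v
      · have g2 : tE ends e ≠ v := fun h => hne (g1.trans h.symm)
        rw [if_pos g1, if_neg g2, h3]
        simp [g1]
      · by_cases g2 : tE ends e = v
        · have h4 : ∀ x y : ZMod 2, x - y = x + y := by decide
          rw [if_neg g1, if_pos g2, h3, h4]
          simp [g2]
        · rw [if_neg g1, if_neg g2]
          simp [g1, g2]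
    rw [sum_congr rfl (fun e _ => h2 e), sum_ite_mem, univ_inter, sum_const, nsmul_eq_mul,
      mul_one, ZMod.natCast_eq_zero_iff_even] at h1
    exact h1
  · intro e he
    rw [mem_filter]
    exact ⟨mem_univ _, ms_zero _ (hc4 e he)⟩
  · intro e
    rw [← ms_card (c e) (hc10 e)]
    congr 1
    ext i
    simp

theorem final (ends : E → Sym2 V) (hloop : ∀ e : E, ¬ (ends e).IsDiag)
    (hdeg : ∀ v : V, (univ.filter (fun e : E => v ∈ ends e)).card = 3)
    (hbr : ∀ e : E, ∃ S : Finset E, e ∈ S ∧ EvenSet ends S)
    (hw : ∃ num : V → ℕ, Function.Injective num ∧ ∀ n,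
      (univ.filter (fun e : E => (∃ v ∈ ends e, num v < n) ∧ ∃ v ∈ ends e, n ≤ num v)).card ≤ 6)
    (C : Finset E) (hC : Circ ends C) :
    ∃ F : Fin 5 → Multiset (Finset E), C ∈ F 0 ∧ (∀ i, ∀ A ∈ F i, Circ ends A) ∧
      (∀ i e, (F i).countP (fun A : Finset E => e ∈ A) ≤ 1) ∧
      ∀ e, ∑ i, (F i).countP (fun A : Finset E => e ∈ A) = 2 := by
  classical
  obtain ⟨A, hA1, hA2, hA3⟩ := main ends hloop hdeg hbr hw C hC
  have hrest : EvenSet ends (A 0 \ C) := by
    intro v
    have h1 : (A 0 \ C).filter (fun f => v ∈ ends f) =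
        ((A 0).filter (fun f => v ∈ ends f)) \ (C.filter (fun f => v ∈ ends f)) := by
      ext f
      simp only [mem_filter, mem_sdiff]
      tauto
    rw [h1, Finset.card_sdiff_of_subset (Finset.filter_subset_filter _ hA2)]
    exact (Nat.even_sub (Finset.card_le_card (Finset.filter_subset_filter _ hA2))).2
      (iff_of_true (hA1 0 v) (hC.2.1 v))
  obtain ⟨F0, hF01, hF02⟩ := even_parts ends _ (A 0 \ C) le_rfl hrest
  have key : ∀ i, ∃ F : Multiset (Finset E), (i = 0 → C ∈ F) ∧ (∀ B ∈ F, Circ ends B) ∧
      ∀ e, F.countP (fun B : Finset E => e ∈ B) = if e ∈ A i then 1 else 0 := by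
    intro i
    by_cases hi : i = 0
    · subst hi
      refine ⟨C ::ₘ F0, fun _ => Multiset.mem_cons_self _ _, ?_, ?_⟩
      · intro B hB
        rcases Multiset.mem_cons.1 hB with rfl | hB
        · exact hC
        · exact hF01 B hB
      · intro e
        rw [Multiset.countP_cons, hF02 e]
        by_cases h1 : e ∈ C
        · have h2 : e ∈ A 0 := hA2 h1
          simp [h1, h2]
        · by_cases h2 : e ∈ A 0 <;> simp [h1, h2]
    · obtain ⟨F, hF1, hF2⟩ := even_parts ends _ (A i) le_rfl (hA1 i)
      exact ⟨F, fun h => absurd h hi, hF1, hF2⟩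
  choose F hF1 hF2 hF3 using key
  refine ⟨F, hF1 0 rfl, hF2, fun i e => ?_, fun e => ?_⟩
  · rw [hF3]
    split_ifs <;> norm_num
  · rw [Finset.sum_congr rfl (fun i _ => hF3 i e), ← hA3 e, Finset.card_filter]

end Pool.Agent.Y425.SC6
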